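import Pool.Agent.helper33.SP.SpecC1S

/-! # Project sp, module UJ15: a change in the small box gives four arms -/

namespace TP

open DP MeasureTheory

theorem UJ15_agree (t : ℕ) (x : V) (b b'' : V → Bool) (w : V) (hw : 2 ^ t + 1 < sd x w) :
    col b w = col (mx {v | sd x v ≤ 2 ^ t} b b'') w := by
  unfold col mx
  rw [if_neg]
  intro h
  have h' : sd x (br w) ≤ 2 ^ t := h
  have hf := br_fst w
  have hs := br_snd w
  unfold sd at hw h'
  omega

theorem UJ15_congr {c c' : V → Bool} {k : Bool} {x : V} {m n : ℕ}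
    (h : ∀ w ∈ ann x m n, c w = c' w) (ht : twoCl c k x m n) : twoCl c' k x m n := by
  obtain ⟨u, hu, v, hv, ⟨u', hu', h1⟩, ⟨v', hv', h2⟩, h3⟩ := ht
  exact ⟨u, hu, v, hv, ⟨u', hu', (Conn.congr h).1 h1⟩, ⟨v', hv', (Conn.congr h).1 h2⟩,
    fun h4 => h3 ((Conn.congr h).2 h4)⟩

/-- UJ15 -/
theorem UJ15 (h1 : UI1_stmt) (hAM : DP.AM_stmt) : UJ15_stmt := by
  classical
  intro i t N x b b'' ht htN hbox
  have hp1 : 2 ≤ 2 ^ t := by
    calc 2 = 2 ^ 1 := by norm_num
      _ ≤ 2 ^ t := Nat.pow_le_pow_right (by norm_num) ht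
  have hp2 : 2 ^ (t + 1) = 2 * 2 ^ t := by rw [pow_succ]; ring
  have hp3 : 2 ^ (t + 1) ≤ 2 ^ N := Nat.pow_le_pow_right (by norm_num) (by omega)
  -- the sides of the rectangle are far
  have hleft : (1 : ℤ) ≤ x.1 - (2 ^ N : ℕ) := by
    have h : ((x.1 - (2 ^ N : ℕ), x.2) : V) ∈ box x (2 ^ N) := by
      show sd x (x.1 - (2 ^ N : ℕ), x.2) ≤ 2 ^ N
      unfold sd
      simp
    exact (hbox h).1
  have hright : x.1 + (2 ^ N : ℕ) ≤ 2 * 2 ^ i := by
    have h : ((x.1 + (2 ^ N : ℕ), x.2) : V) ∈ box x (2 ^ N) := by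
      show sd x (x.1 + (2 ^ N : ℕ), x.2) ≤ 2 ^ N
      unfold sd
      simp
    exact (hbox h).2.1
  have hfar1 : ∀ u : V, u.1 = 1 → 2 ^ N ≤ sd x u := by
    intro u hu
    unfold sd
    omega
  have hfar2 : ∀ u : V, u.1 = 2 * 2 ^ i → 2 ^ N ≤ sd x u := by
    intro u hu
    unfold sd
    rw [hu]
    omega
  set b' := mx {v | sd x v ≤ 2 ^ t} b b'' with hb'
  have hag : ∀ w, 2 ^ t + 1 < sd x w → col b w = col b' w := fun w hw =>
    UJ15_agree t x b b'' w hw
  -- four arms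
  have key : ∀ c c' : V → Bool, (∀ w, 2 ^ t + 1 < sd x w → c w = c' w) →
      hcross c true 1 (2 * 2 ^ i) 0 (hh (2 ^ i)) → ¬ hcross c' true 1 (2 * 2 ^ i) 0 (hh (2 ^ i)) →
      four c x (2 ^ (t + 1)) (2 ^ N) := by
    intro c c' hcc h2 h3
    obtain ⟨u, v, hu, hv, hc⟩ := h2
    have h4 : ¬ Conn c' true (rect 1 (2 * 2 ^ i) 0 (hh (2 ^ i))) u v := fun h =>
      h3 ⟨u, v, hu, hv, h⟩
    have h5 := h1 c c' true (rect 1 (2 * 2 ^ i) 0 (hh (2 ^ i))) x (2 ^ t + 1) (2 ^ N) u v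
      (by omega) hbox (hfar1 u hu) (hfar2 v hv) hcc hc h4
    have h6 := hAM c 4 x (2 ^ t + 1 + 1) (2 ^ (t + 1)) (2 ^ N) (2 ^ N) (Or.inr rfl) (by omega)
      hp3 le_rfl (by simpa [ar, four] using h5)
    simpa [ar] using h6
  have hI0 : (0 : ℝ) ≤ (F4 x (t + 1) N).indicator 1 b :=
    Set.indicator_nonneg (fun _ _ => zero_le_one) b
  by_cases hb : b ∈ Fc i
  · by_cases hbb : b' ∈ Fc i
    · have e : pmf (Fc i) b - pmf (Fc i) b' = 0 := by
        simp only [pmf, Set.indicator_of_mem hb, Set.indicator_of_mem hbb, Pi.one_apply]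
        norm_num
      rw [e]
      nlinarith
    · have h4 : b ∈ F4 x (t + 1) N := key (col b) (col b') hag hb hbb
      simp only [pmf, Set.indicator_of_mem hb, Set.indicator_of_notMem hbb,
        Set.indicator_of_mem h4, Pi.one_apply]
      norm_num
  · by_cases hbb : b' ∈ Fc i
    · have h4 : b ∈ F4 x (t + 1) N := by
        have h5 := key (col b') (col b) (fun w hw => (hag w hw).symm) hbb hb
        refine UJ15_congr (c := col b') (fun w hw => (hag w ?_).symm) h5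
        have : 2 ^ (t + 1) ≤ sd x w := hw.1
        omega
      simp only [pmf, Set.indicator_of_notMem hb, Set.indicator_of_mem hbb,
        Set.indicator_of_mem h4, Pi.one_apply]
      norm_num
    · have e : pmf (Fc i) b - pmf (Fc i) b' = 0 := by
        simp only [pmf, Set.indicator_of_notMem hb, Set.indicator_of_notMem hbb]
        norm_num
      rw [e]
      nlinarith

end TP
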