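import Pool.Agent.helper33.SP.SpecC2S

/-! # Project sp, module VA17: conditional standard extension, `B4 ⊆ S4` -/

namespace TP

open DP MeasureTheory

/-- The event that the coins in the small box are those of `b`. -/
def VA17_X (z : V) (p : ℕ) (b : V → Bool) : Set (V → Bool) :=
  {b' | ∀ u : V, sd z u ≤ 2 ^ p → (u.1 + u.2) % 2 = 0 → b' u = b u}

theorem VA17_locX (z : V) (p : ℕ) (b : V → Bool) :
    Loc (VA17_X z p b) {u | sd z u ≤ 2 ^ p ∧ (u.1 + u.2) % 2 = 0} := by
  have hf : ({u | sd z u ≤ 2 ^ p ∧ (u.1 + u.2) % 2 = 0} : Set V).Finite :=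
    (box_finite z (2 ^ p)).subset fun u hu => hu.1
  refine Loc.of_finite hf fun b1 b2 h => ?_
  have h' : ∀ u : V, sd z u ≤ 2 ^ p → (u.1 + u.2) % 2 = 0 → b1 u = b2 u := by
    intro u h1 h2
    have := h u ⟨h1, h2⟩
    rwa [br_of_even h2] at this
  constructor
  · intro hX u h1 h2
    rw [← h' u h1 h2]
    exact hX u h1 h2
  · intro hX u h1 h2
    rw [h' u h1 h2]
    exact hX u h1 h2

theorem VA17_pos (z : V) (p : ℕ) (b : V → Bool) : 0 < Pr (VA17_X z p b) := by
  classical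
  have hf := box_finite z (2 ^ p)
  have hsub : Set.pi (hf.toFinset : Set V) (fun u => ({b u} : Set Bool)) ⊆ VA17_X z p b := by
    intro b' hb' u h1 _
    exact hb' u (by rw [Finset.mem_coe, Set.Finite.mem_toFinset]; exact h1)
  have h1 : 0 < Pr (Set.pi (hf.toFinset : Set V) (fun u => ({b u} : Set Bool))) := by
    rw [Pr, P1, measureReal_def,
      Measure.infinitePi_pi _ (fun i _ => measurableSet_singleton _), ENNReal.toReal_prod]
    refine Finset.prod_pos fun u _ => ?_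
    rw [PMF.toMeasure_apply_singleton _ _ (measurableSet_singleton _),
      PMF.uniformOfFintype_apply]
    simp
  haveI : IsProbabilityMeasure P1 := by unfold P1; infer_instance
  exact h1.trans_le (measureReal_mono hsub)

/-- Conditioning on the inside. -/
theorem VA17_key (hI : Bindep_stmt) (hZ : Bzero_stmt) (z : V) (p h a m : ℕ) (b : V → Bool)
    (E : Set (V → Bool)) (hm : m ≤ p + 5) (hh : 8 ≤ h) (hE : Loc E (ann z (2 ^ a) (2 ^ m))) :
    Pr (VA17_X z p b ∩ E) = Pr (VA17_X z p b) * cpr (Ag z p h) E b := by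
  classical
  obtain ⟨Λ, hΛ, hdep⟩ := hE
  set F' : Set (V → Bool) := {b' | mx (Ag z p h) b b' ∈ E} with hF'
  set S : Set V := {u | sd z u ≤ 2 ^ p ∧ (u.1 + u.2) % 2 = 0} with hS
  set S' : Set V := {u | u ∈ Ag z p h ∧ (u.1 + u.2) % 2 = 0} with hS'
  have hX := VA17_locX z p b
  have hF : Loc F' S' := by
    refine ⟨(Λ.image br).filter (· ∈ Ag z p h), ?_, ?_⟩
    · intro v hv
      rw [Finset.mem_coe, Finset.mem_filter, Finset.mem_image] at hv
      obtain ⟨⟨w, -, rfl⟩, h2⟩ := hv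
      exact ⟨h2, br_even w⟩
    · intro b1 b2 h12
      refine hdep _ _ fun v hv => ?_
      unfold mx
      by_cases hA : br v ∈ Ag z p h
      · rw [if_pos hA, if_pos hA]
        have := h12 (br v) (by
          rw [Finset.mem_coe, Finset.mem_filter]
          exact ⟨Finset.mem_image_of_mem _ hv, hA⟩)
        rwa [br_br] at this
      · rw [if_neg hA, if_neg hA]
  have hdis : BDis S S' := by
    rintro v ⟨hv1, hv2⟩ w ⟨hw1, hw2⟩ hvw
    rw [br_of_even hv2, br_of_even hw2] at hvw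
    subst hvw
    exact absurd hw1.1 (not_lt.2 hv1)
  have hpow : 2 ^ m + 1 < 2 ^ (p + h) := by
    have h1 : 2 ^ m ≤ 2 ^ (p + 5) := Nat.pow_le_pow_right (by norm_num) hm
    have h2 : 2 ^ (p + 5) * 8 ≤ 2 ^ (p + h) := by
      have : 2 ^ (p + 5) * 8 = 2 ^ (p + 8) := by rw [pow_add 2 p 8, pow_add 2 p 5]; ring
      rw [this]
      exact Nat.pow_le_pow_right (by norm_num) (by omega)
    have h3 : 1 ≤ 2 ^ (p + 5) := Nat.one_le_two_pow
    omega
  have heq : VA17_X z p b ∩ E = VA17_X z p b ∩ F' := by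
    ext b'
    refine and_congr_right fun hb' => ?_
    refine hdep _ _ fun v hv => ?_
    unfold mx
    by_cases hA : br v ∈ Ag z p h
    · rw [if_pos hA]
    · rw [if_neg hA]
      refine hb' (br v) ?_ (br_even v)
      by_contra hc
      push Not at hc
      refine hA ⟨hc, ?_⟩
      have h1 : sd z v ≤ 2 ^ m := (hΛ hv).2
      have h2 := sd_br_le v
      have h3 := sd_triangle z v (br v)
      omega
  have h0 : ∀ G : Set (V → Bool), ∀ T : Set V, Loc G T → Q (fun _ => 0) G G = Pr G := by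
    intro G T hG
    rw [hZ (fun _ => 0) G G T hG hG (fun _ _ => rfl), Set.inter_self]
  have h1 := hI (fun _ => 0) (VA17_X z p b) (VA17_X z p b) F' F' S S' hdis hX hX hF hF
  rw [h0 _ _ (hX.inter hF), h0 _ _ hX, h0 _ _ hF] at h1
  rw [heq, h1]
  rfl

/-- VA17 -/
theorem VA17 (hSX1 : K.SX1_stmt) (hLQ : K.LQ_stmt) (hI : Bindep_stmt) (hZ : Bzero_stmt) :
    VA17_stmt := by
  constructor
  · obtain ⟨c, hc, i₁, h1⟩ := hSX1
    refine ⟨c, hc, i₁, fun z p h a b hz hp hh ha => ?_⟩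
    have hLB := hLQ.2.2.1
    have hok : (Dmark 4 z (2 ^ a)).ok true z (2 ^ (p + 4 - 1)) := by
      have hpa : 2 ^ a * 2 ≤ 2 ^ (p + 4 - 1) := by
        rw [← pow_succ]
        exact Nat.pow_le_pow_right (by norm_num) (by omega)
      unfold Dat.ok
      rw [if_pos rfl]
      constructor
      · rintro i u ⟨hu, -⟩
        have hu' : sd z u = 2 ^ a := hu
        show sd z u ≤ _
        omega
      · rintro k u (hu | ⟨l, -, -, hu⟩)
        · have hu' : sd z u < 2 ^ a := hu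
          show sd z u ≤ _
          omega
        · have h2 : sd z (zpt z (2 ^ a) l) = 2 ^ a := by
            unfold zpt sd
            split_ifs <;> simp
          have h3 := sd_triangle z (zpt z (2 ^ a) l) u
          show sd z u ≤ _
          omega
    have hXl : Loc (VA17_X z p b) (box z (2 ^ (p + 4 - 1))) := by
      refine (VA17_locX z p b).mono ?_
      rintro u ⟨hu, -⟩
      have : 2 ^ p ≤ 2 ^ (p + 4 - 1) := Nat.pow_le_pow_right (by norm_num) (by omega)
      exact hu.trans this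
    have h2 := h1 z (Dmark 4 z (2 ^ a)) (VA17_X z p b) (p + 4) (Int.even_iff.2 hz) (by omega)
      hok hXl
    have e1 : (Ev fun c => Std c 4 true z (2 ^ (p + 4)) (Dmark 4 z (2 ^ a))) = B4 z a (p + 4) := rfl
    have e2 : (Ev fun c => Std c 4 true z (2 ^ (p + 4 + 1)) (Dmark 4 z (2 ^ a))) =
        B4 z a (p + 5) := rfl
    rw [e1, e2, VA17_key hI hZ z p h a (p + 4) b _ (by omega) hh (hLB z a (p + 4) (by omega)),
      VA17_key hI hZ z p h a (p + 5) b _ le_rfl hh (hLB z a (p + 5) (by omega))] at h2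
    have h3 := VA17_pos z p b
    nlinarith
  · refine ⟨1, fun z a n hz ha han => ?_⟩
    intro b hb
    have hpa : 2 ^ (a - 1) ≤ 2 ^ a := Nat.pow_le_pow_right (by norm_num) (by omega)
    have hpn : 2 ^ a ≤ 2 ^ n := Nat.pow_le_pow_right (by norm_num) (by omega)
    have hkey : ∀ (k : Bool) (i : ℕ) (y : V) (r : ℕ),
        (∃ p ∈ (Dmark 4 z (2 ^ (a - 1))).I i, ∃ u ∈ bd z (2 ^ n), sd y u ≤ r ∧
          Conn (col b) k (HS true z (2 ^ n) \ ((Dmark 4 z (2 ^ (a - 1))).N k ∪
            opp 4 (zpt z (2 ^ n)) (2 ^ n / 8) k)) p u) →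
        ∃ p ∈ (Dfree true z (2 ^ a)).I i, ∃ u ∈ bd z (2 ^ n), sd y u ≤ r ∧
          Conn (col b) k (HS true z (2 ^ n) \ ((Dfree true z (2 ^ a)).N k ∪
            opp 4 (zpt z (2 ^ n)) (2 ^ n / 8) k)) p u := by
      rintro k i y r ⟨p, hp, u, hu, hyu, hc⟩
      have hp' : sd z p = 2 ^ (a - 1) := hp.1
      have hu' : sd z u = 2 ^ n := hu
      obtain ⟨w, hw, h1, -⟩ := hc.symm.enter (x := z) (m := 2 ^ a) (by omega) (by omega)
      refine ⟨w, hw, u, hu, hyu, ?_⟩
      refine h1.symm.mono ?_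
      rintro v ⟨⟨⟨hv1, hv2⟩, hv3⟩, hv4⟩
      refine ⟨⟨hv1, ?_⟩, hv3⟩
      rintro (hv5 | hv5)
      · have hv5' : sd z v < 2 ^ a := by
          simpa [Dfree] using hv5
        exact absurd hv4 (not_le.2 hv5')
      · exact hv2 (Or.inr hv5)
    have hM : ∀ k : Bool, MrkC (col b) 4 true z (2 ^ n) (Dmark 4 z (2 ^ (a - 1))) (zpt z (2 ^ n))
        (2 ^ n / 64) (2 ^ n / 8) k → MrkC (col b) 4 true z (2 ^ n) (Dfree true z (2 ^ a))
        (zpt z (2 ^ n)) (2 ^ n / 64) (2 ^ n / 8) k := by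
      rintro k (h1 | h1)
      · exact Or.inl fun i hi hk => hkey k i _ _ (h1 i hi hk)
      · exact Or.inr fun i hi hk => hkey k i _ _ (h1 i hi hk)
    exact ⟨hM true hb.1, hM false hb.2⟩

end TP
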