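import Mathlib
import Pool.Agent.helper3.SP.SpecPP

/-!
# Project sp, piece C2P, module PP10: a wire with all its loops gives a connected set which hooks
-/

namespace TP

open DP MeasureTheory

theorem PP10_mem {c : V → Bool} {k : Bool} {g : V} {ℓ : ℕ} {S : Set V} (h : Loop c k g ℓ S) :
    (∀ v ∈ S, ℓ < sd g v ∧ sd g v < 3 * ℓ ∧ c v = k) ∧ ∃ v, v ∈ S := by
  obtain ⟨l, u, hp, -, rfl⟩ := h
  refine ⟨fun v hv => hp.2.2.2 v hv, u, ?_⟩
  exact List.mem_of_mem_head? hp.1

theorem PP10_zpt0 (A : V) (i : ℕ) : zpt A 0 i = A := by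
  unfold zpt
  split_ifs <;> simp

theorem PP10_gnb (A : V) (t ℓ i : ℕ) :
    gnb ℓ (zpt A (2 * t * ℓ) i) (zpt A (2 * (t + 1) * ℓ) i) := by
  unfold gnb zpt
  split_ifs with h1 h2 h3
  · left
    ext <;> push_cast <;> ring
  · right; right; left
    ext <;> push_cast <;> ring
  · right; left
    ext <;> push_cast <;> ring
  · right; right; right
    ext <;> push_cast <;> ring

theorem PP10 (hLC : DP.LC_stmt) (hLN : DP.LN_stmt) (hLH : DP.LH_stmt) : PP10_stmt := by
  intro c k w hok hL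
  have hL' : ∀ q : V × ℕ, ∃ S, q ∈ w.all → Loop c k q.1 q.2 S := by
    intro q
    by_cases hq : q ∈ w.all
    · obtain ⟨S, hS⟩ := hL q hq
      exact ⟨S, fun _ => hS⟩
    · exact ⟨∅, fun h => absurd h hq⟩
  choose S hS using hL'
  obtain ⟨hl1, hsg, hJ, hbg⟩ := hok
  set U : Set V := {v | ∃ q ∈ w.all, v ∈ S q} with hU
  have hSU : ∀ q ∈ w.all, S q ⊆ U := fun q hq v hv => ⟨q, hq, hv⟩
  let K : V × ℕ → V × ℕ → Prop := fun q q' => ∀ z ∈ S q, ∀ z' ∈ S q', Con U z z'
  have hKself : ∀ q ∈ w.all, K q q := fun q hq z hz z' hz' =>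
    (hLC c k q.1 q.2 (S q) (hS q hq) z hz z' hz').mono (hSU q hq)
  have hKsymm : ∀ q q', K q q' → K q' q := fun q q' h z hz z' hz' => (h z' hz' z hz).symm
  have hKtrans : ∀ q r s, r ∈ w.all → K q r → K r s → K q s := by
    intro q r s hr h1 h2 z hz z' hz'
    obtain ⟨y, hy⟩ := (PP10_mem (hS r hr)).2
    exact (h1 z hz y hy).trans (h2 y hy z' hz')
  have hcel : ∀ g ∈ w.cel, (g, w.l) ∈ w.all := by
    intro g hg
    exact List.mem_append_left _ (List.mem_map.2 ⟨g, hg, rfl⟩)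
  have hscel : ∀ q ∈ w.sg, ∀ t ≤ q.2.2, zpt q.1 (2 * t * w.l) q.2.1 ∈ w.cel := by
    intro q hq t ht
    refine List.mem_flatMap.2 ⟨q, hq, ?_⟩
    refine List.mem_map.2 ⟨t, ?_, rfl⟩
    rw [List.mem_range]
    omega
  -- one segment
  have hseg : ∀ q ∈ w.sg, ∀ t ≤ q.2.2, K (q.1, w.l) (zpt q.1 (2 * t * w.l) q.2.1, w.l) := by
    intro q hq t
    induction t with
    | zero =>
      intro ht
      have h0 := hscel q hq 0 ht
      simp only [mul_zero, zero_mul, PP10_zpt0] at h0 ⊢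
      exact hKself _ (hcel _ h0)
    | succ t ih =>
      intro ht
      have h1 := ih (by omega)
      have h2 := hcel _ (hscel q hq t (by omega))
      have h3 := hcel _ (hscel q hq (t + 1) ht)
      refine hKtrans _ _ _ h2 h1 ?_
      intro z hz z' hz'
      obtain ⟨y, hy, hy'⟩ := hLN c k _ _ w.l _ _ (PP10_gnb q.1 t w.l q.2.1) (hS _ h2) (hS _ h3)
      exact (hKself _ h2 z hz y hy).trans (hKself _ h3 y hy' z' hz')
  have hseg' : ∀ q ∈ w.sg, ∀ g ∈ scel w.l q, K (q.1, w.l) (g, w.l) := by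
    intro q hq g hg
    obtain ⟨t, ht, rfl⟩ := List.mem_map.1 hg
    rw [List.mem_range] at ht
    exact hseg q hq t (by omega)
  -- all the segments
  have hall : ∀ s : List (V × ℕ × ℕ), (∀ q ∈ s, q ∈ w.sg) → Jnd w.l s →
      ∀ g ∈ s.flatMap (scel w.l), ∀ g' ∈ s.flatMap (scel w.l), K (g, w.l) (g', w.l) := by
    intro s
    induction s with
    | nil =>
      intro _ _ g hg
      simp at hg
    | cons q s ih =>
      intro hsub hJ'
      obtain ⟨h1, h2⟩ := hJ'
      have hq : q ∈ w.sg := hsub q List.mem_cons_self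
      have ih' := ih (fun r hr => hsub r (List.mem_cons_of_mem _ hr)) h2
      have hq1 : (q.1, w.l) ∈ w.all := by
        have h := hcel _ (hscel q hq 0 (Nat.zero_le _))
        simpa [PP10_zpt0] using h
      have key : ∀ g ∈ (q :: s).flatMap (scel w.l), K (q.1, w.l) (g, w.l) := by
        intro g hg
        rw [List.flatMap_cons, List.mem_append] at hg
        rcases hg with hg | hg
        · exact hseg' q hq g hg
        · rcases h1 with h1 | h1
          · subst h1
            simp at hg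
          · exact ih' _ h1 g hg
      intro g hg g' hg'
      exact hKtrans _ _ _ hq1 (hKsymm _ _ (key g hg)) (key g' hg')
  have hallw : ∀ g ∈ w.cel, ∀ g' ∈ w.cel, K (g, w.l) (g', w.l) :=
    hall w.sg (fun q hq => hq) hJ
  -- every loop is joined to a small one
  have hjoin : ∀ q ∈ w.all, ∃ g ∈ w.cel, K q (g, w.l) := by
    intro q hq
    rcases List.mem_append.1 hq with h | h
    · obtain ⟨g, hg, rfl⟩ := List.mem_map.1 h
      exact ⟨g, hg, hKself _ (hcel g hg)⟩
    · obtain ⟨⟨g, hg, hg1⟩, ⟨g', hg', hg1'⟩⟩ := hbg q h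
      refine ⟨g, hg, ?_⟩
      obtain ⟨z, hz⟩ := (PP10_mem (hS _ (hcel g hg))).2
      obtain ⟨z', hz'⟩ := (PP10_mem (hS _ (hcel g' hg'))).2
      have hz2 := (PP10_mem (hS _ (hcel g hg))).1 z hz
      have hz2' := (PP10_mem (hS _ (hcel g' hg'))).1 z' hz'
      have hcon : Con U z z' := hallw g hg g' hg' z hz z' hz'
      have d1 : sd q.1 z ≤ q.2 := by
        have := sd_triangle q.1 g z
        have h3 := hz2.2.1
        simp only at h3
        omega
      have d2 : 3 * q.2 ≤ sd q.1 z' := by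
        have := sd_triangle q.1 z' g'
        have h3 := hz2'.2.1
        have h4 := sd_comm z' g'
        simp only at h3
        omega
      obtain ⟨y, hy, hcy⟩ := hLH c k q.1 q.2 (S q) (hS q hq) U z z' hcon d1 d2
      intro v hv v' hv'
      have e1 : Con U v y := hKself q hq v hv y hy
      have e2 : Con U z v' := hKself _ (hcel g hg) z hz v' hv'
      exact (e1.trans hcy.symm).trans e2
  refine ⟨U, ⟨?_, ?_⟩, ?_⟩
  · rintro v ⟨q, hq, hv⟩
    have h := (PP10_mem (hS q hq)).1 v hv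
    exact ⟨⟨q, hq, h.2.1⟩, h.2.2⟩
  · rintro z ⟨q, hq, hz⟩ z' ⟨q', hq', hz'⟩
    obtain ⟨g, hg, h1⟩ := hjoin q hq
    obtain ⟨g', hg', h2⟩ := hjoin q' hq'
    have h3 := hKtrans _ _ _ (hcel g hg) h1 (hallw g hg g' hg')
    exact hKtrans _ _ _ (hcel g' hg') h3 (hKsymm _ _ h2) z hz z' hz'
  · intro q hq W u v huv hu hv
    obtain ⟨y, hy, hcy⟩ := hLH c k q.1 q.2 (S q) (hS q hq) W u v huv hu hv
    exact ⟨y, hSU q hq hy, hcy.mem_right⟩

end TP
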