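import Mathlib
import Pool.Agent.helper2.SP.SpecTA

/-!
# Project sp, part TA, module TA12: arms avoid the spots in conflict
-/

namespace TP.TA

open DP MeasureTheory

/-- Lifted positions which differ by one belong to neighbours. -/
theorem TA12_nxt (hCG : DP.CG1_stmt) {x : V} {N : ℕ} (hN : 1 ≤ N) {u v : V} {L M : ℤ}
    (hu : Lf x N u L) (hv : Lf x N v M) (h : M = L + 1) : nxt x N u v := by
  obtain ⟨hu1, k, hk⟩ := hu
  obtain ⟨hv1, k', hk'⟩ := hv
  have h1 := (hCG x N hN).1 u hu1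
  have h2 := (hCG x N hN).1 v hv1
  refine ⟨hu1, hv1, ?_⟩
  have hN' : (1 : ℤ) ≤ N := by exact_mod_cast hN
  have h3 : 8 * (N : ℤ) * (k - k') = pos x N v - pos x N u - 1 := by
    rw [mul_sub]
    linarith
  have h4 : k - k' < 1 := by
    by_contra hc
    push Not at hc
    nlinarith
  have h5 : -2 < k - k' := by
    by_contra hc
    push Not at hc
    nlinarith
  have h6 : k - k' = 0 ∨ k - k' = -1 := by omega
  rcases h6 with h6 | h6
  · left
    rw [h6] at h3
    linarith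
  · right
    rw [h6] at h3
    constructor <;> linarith

theorem TA12_nb (hCG : DP.CG1_stmt) {x : V} {N : ℕ} (hN : 1 ≤ N) {u v : V} {L M : ℤ}
    (hu : Lf x N u L) (hv : Lf x N v M) (h : M = L - 1 ∨ M = L + 1) : nb x N u v := by
  rcases h with h | h
  · right
    exact TA12_nxt hCG hN hv hu (by linarith)
  · left
    exact TA12_nxt hCG hN hu hv h

theorem TA12_conn {c : V → Bool} {k : Bool} {R W : Set V} {u v : V} (h : Con W u v)
    (hW : ∀ w ∈ W, w ∈ R ∧ c w = k) : Conn c k R u v := Con.mono (fun w hw => hW w hw) h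

theorem TA12_nb_symm {x : V} {N : ℕ} {u v : V} (h : nb x N u v) : nb x N v u := h.symm

theorem TA12_nb_sd (hCG : DP.CG1_stmt) (hCG2 : DP.CG2_stmt) {x : V} {N : ℕ} (hN : 1 ≤ N) {u v : V}
    (h : nb x N u v) : sd u v ≤ 1 := by
  rcases h with ⟨hu, hv, h⟩ | ⟨hu, hv, h⟩
  · have h1 := hCG2 x N hN u hu v hv
    rcases h with h | h
    · have h2 := h1.1
      rw [h] at h2
      have h3 : |pos x N u - (pos x N u + 1)| = 1 := by
        rw [show pos x N u - (pos x N u + 1) = -1 by ring]; rfl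
      rw [h3] at h2
      exact_mod_cast h2
    · have h2 := h1.2.1
      rw [h.1, h.2] at h2
      have hN' : (1 : ℤ) ≤ N := by exact_mod_cast hN
      have h3 : |8 * (N : ℤ) - 1| = 8 * (N : ℤ) - 1 := abs_of_nonneg (by linarith)
      rw [h3] at h2
      have h4 : (sd u v : ℤ) ≤ 1 := by linarith
      exact_mod_cast h4
  · have h1 := hCG2 x N hN u hv v hu
    rcases h with h | h
    · have h2 := h1.1
      rw [h] at h2
      have h3 : |pos x N v + 1 - pos x N v| = 1 := by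
        rw [show pos x N v + 1 - pos x N v = 1 by ring]; rfl
      rw [h3] at h2
      exact_mod_cast h2
    · have h2 := h1.2.1
      rw [h.1, h.2] at h2
      have hN' : (1 : ℤ) ≤ N := by exact_mod_cast hN
      have h3 : |1 - 8 * (N : ℤ)| = 8 * (N : ℤ) - 1 := by
        rw [abs_sub_comm]; exact abs_of_nonneg (by linarith)
      rw [h3] at h2
      have h4 : (sd u v : ℤ) ≤ 1 := by linarith
      exact_mod_cast h4

theorem TA12_cr {s : Bool} {c : V → Bool} {x : V} {m n : ℕ} {u : V} {k : Bool} (hk : c u = k)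
    (hu : u ∈ bd x (ci s m n)) (h : ∃ p ∈ bd x (ci (!s) m n), Conn c k (ann x m n) u p) :
    crX s c x (ci s m n) (ci (!s) m n) u := by
  subst hk
  cases s
  · exact ⟨hu, h⟩
  · exact ⟨hu, h⟩

/-- The application of `DA_stmt` to one spot and one arm. -/
theorem TA12_core (hCG : DP.CG1_stmt) (hCG2 : DP.CG2_stmt) (hDA : DA_stmt) {s : Bool}
    {c : V → Bool} {x : V} {m n r₁ r₂ r₃ : ℕ} (hx : Even (x.1 + x.2)) (hm : 1 ≤ m) (hmn : m < n)
    (hr : m + r₃ ≤ n) (h8 : 8 * (2 * r₂ + 14) ≤ r₃) (hr3 : r₃ ≤ ci s m n) (h1 : 1 ≤ r₁)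
    (h12 : r₁ < r₂) (hbad : ¬ Bad s c x (ci s m n) r₁ r₂) {k κ : Bool} {yi yj zj p : V}
    {A : Set V} {l : List V} (hA : A ⊆ ann x m n) (hAk : ∀ v ∈ A, c v = k)
    (hnb : nb x (ci s m n) yj zj) (hyj : c yj = κ) (hzj : c zj = !κ)
    (hcy : crX s c x (ci s m n) (ci (!s) m n) yj) (hcz : crX s c x (ci s m n) (ci (!s) m n) zj)
    (hsd : r₂ + 1 ≤ sd yi yj) (hp : p ∈ bd x (ci (!s) m n)) (hl : IsPath A l yi p) (hB : BNd l) :
    ∀ w ∈ l, r₁ ≤ sd yj w + 1 := by
  have hN : 1 ≤ ci s m n := by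
    unfold ci; split_ifs <;> omega
  have hN' : 1 ≤ ci (!s) m n := by
    unfold ci; split_ifs <;> omega
  have hyz := TA12_nb_sd hCG hCG2 hN hnb
  have hpath : IsPath {v | v ∈ HS s x (ci s m n) ∧ c v = k} l yi p := by
    refine ⟨hl.1, hl.2.1, hl.2.2.1, fun w hw => ⟨?_, hAk w (hl.2.2.2 w hw)⟩⟩
    have h := hA (hl.2.2.2 w hw)
    cases s
    · exact h.1
    · exact h.2
  have hfar : far s x (ci (!s) m n) p := by
    have h : sd x p = ci (!s) m n := hp
    unfold far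
    rw [h]
    split_ifs <;> exact le_rfl
  have hgap : gap s (ci s m n) (ci (!s) m n) r₂ := by
    cases s
    · show m + r₂ ≤ n
      omega
    · show m + r₂ ≤ n
      omega
  intro w hw
  by_cases hκ : κ = k
  · have h := hDA s c k x (ci s m n) (ci (!s) m n) r₁ r₂ hx hN' hgap h1 h12 (by omega) hbad
      yj zj hnb (by rw [hyj, hκ]) (by rw [hzj, hκ]) hcy hcz yi p l ?_ hfar hpath hB w hw
    · have h2 := sd_triangle zj yj w
      have h3 := sd_comm yj zj
      omega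
    · have h2 := sd_triangle yi zj yj
      have h3 := sd_comm yj zj
      have h4 := sd_comm yi zj
      omega
  · have hk' : k = !κ := by
      revert hκ; cases κ <;> cases k <;> simp
    have h := hDA s c k x (ci s m n) (ci (!s) m n) r₁ r₂ hx hN' hgap h1 h12 (by omega) hbad
      zj yj hnb.symm (by rw [hzj, hk']) (by rw [hyj, hk', Bool.not_not]) hcz hcy yi p l ?_ hfar
      hpath hB w hw
    · omega
    · have h4 := sd_comm yi yj
      omega

theorem TA12 (hCG : DP.CG1_stmt) (hCG2 : DP.CG2_stmt) (hDA : DA_stmt) (hT1 : TA1_stmt)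
    (hT2 : TA2_stmt) (hT11 : TA11_stmt) : TA12_stmt := by
  intro s c x m n K K' y z L M r₁ r₂ r₃ hx hm hmn hBC hTC hSD hr h8 hr3 h1 h12 hNB hNBK hNBK'
  have hN : 1 ≤ ci s m n := by
    unfold ci; split_ifs <;> omega
  have hdist : ∀ i < 6, ∀ j < 6, i ≠ j → r₂ + 1 ≤ sd (y i) (y j) := by
    intro i hi j hj hij
    have h := hT11 s c x m n K K' y z L M r₂ r₃ hx hm hmn hBC hTC hSD hr h8 hr3 hNBK.2 hNBK'.2
      i hi j hj hij
    omega
  obtain ⟨hWK, hWK', -, -⟩ := id hTC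
  obtain ⟨hK1, hK2, hK3, hK4, hK5, hK6, -⟩ := hT1.1 c x m n K hWK
  obtain ⟨hK1', hK2', hK3', hK4', hK5', hK6', -⟩ := hT1.1 c x m n K' hWK'
  obtain ⟨hTC', -, -, hA1, hA2, -, -, -⟩ := hT2.2 c x m n K K' hBC hTC
  obtain ⟨-, -, -, hB1, hB2, -, -, -⟩ := hT2.2 c x m n K' K hBC hTC'
  obtain ⟨-, hF1, hF2⟩ := (hT2.1 c x m n K hBC).2.2 hWK
  obtain ⟨-, hF1', hF2'⟩ := (hT2.1 c x m n K' hBC).2.2 hWK'
  -- crossing of `K`, `K'`
  have crK : ∀ u ∈ K, u ∈ bd x (ci s m n) → crX s c x (ci s m n) (ci (!s) m n) u := by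
    intro u hu hub
    refine TA12_cr (hK2 u hu) hub ?_
    have h : ∃ p ∈ K, p ∈ bd x (ci (!s) m n) := by
      cases s
      · exact hK5
      · exact hK4
    obtain ⟨p, hp, hpb⟩ := h
    exact ⟨p, hpb, TA12_conn (hK3 u hu p hp) fun v hv => ⟨hK1 hv, hK2 v hv⟩⟩
  have crK' : ∀ u ∈ K', u ∈ bd x (ci s m n) → crX s c x (ci s m n) (ci (!s) m n) u := by
    intro u hu hub
    refine TA12_cr (hK2' u hu) hub ?_
    have h : ∃ p ∈ K', p ∈ bd x (ci (!s) m n) := by
      cases s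
      · exact hK5'
      · exact hK4'
    obtain ⟨p, hp, hpb⟩ := h
    exact ⟨p, hpb, TA12_conn (hK3' u hu p hp) fun v hv => ⟨hK1' hv, hK2' v hv⟩⟩
  have crN : ∀ (c' : V → Bool) (k : Bool) (C : Set V), (∀ v ∈ nbd (ann x m n) C, c' v = k) →
      ∀ u ∈ nbd (ann x m n) C, u ∈ bd x (ci s m n) →
      (∃ p ∈ bd x (ci (!s) m n), Con (nbd (ann x m n) C) u p) →
      crX s c' x (ci s m n) (ci (!s) m n) u := by
    intro c' k C hC u hu hub ⟨p, hp, hup⟩
    refine TA12_cr (hC u hu) hub ⟨p, hp, TA12_conn hup fun v hv => ⟨hv.1, hC v hv⟩⟩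
  have by' : ∀ i < 6, y i ∈ bd x (ci s m n) := fun i hi => (hSD.py i hi).1
  have bz' : ∀ i < 6, z i ∈ bd x (ci s m n) := fun i hi => (hSD.pz i hi).1
  -- the arms
  have hAann : ∀ i < 6, AS c x m n K K' i ⊆ ann x m n := by
    intro i hi v hv
    unfold AS at hv
    split_ifs at hv with g0 g1 g2 g3 g4
    · exact hv.1
    · exact hv.1
    · exact hK1' hv
    · exact hv.1
    · exact hv.1
    · exact hK1 hv
  have hAc : ∀ i < 6, ∀ v ∈ AS c x m n K K' i, c v = kol6 i := by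
    intro i hi v hv
    unfold AS at hv
    split_ifs at hv with g0 g1 g2 g3 g4
    · subst g0
      exact hK6 v hv
    · subst g1
      exact (hF2 v hv.1 hv.2.1 hv.2.2).2
    · subst g2
      exact hK2' v hv
    · subst g3
      exact hK6' v hv
    · subst g4
      exact (hF2' v hv.1 hv.2.1 hv.2.2).2
    · have g5 : i = 5 := by omega
      subst g5
      exact hK2 v hv
  -- the four spots with the colouring `c`
  intro i hi l p hp hl hB j hj hconf
  have hij := hdist i hi j hj hconf.1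
  have caseC : ∀ κ : Bool, nb x (ci s m n) (y j) (z j) → c (y j) = κ → c (z j) = !κ →
      crX s c x (ci s m n) (ci (!s) m n) (y j) → crX s c x (ci s m n) (ci (!s) m n) (z j) →
      ∀ w ∈ l, r₁ ≤ sd (y j) w + 1 := fun κ hnb hy hz hcy hcz =>
    TA12_core hCG hCG2 hDA hx hm hmn hr h8 hr3 h1 h12 hNB.1 (hAann i hi) (hAc i hi) hnb hy hz
      hcy hcz hij hp hl hB
  have hj' : j = 0 ∨ j = 1 ∨ j = 2 ∨ j = 3 ∨ j = 4 ∨ j = 5 := by omega
  rcases hj' with rfl | rfl | rfl | rfl | rfl | rfl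
  · obtain ⟨q1, q2, q3⟩ := hSD.k0
    refine caseC true (TA12_nb hCG hN (hSD.py 0 hj) (hSD.pz 0 hj) (Or.inl ?_)) (hK6 _ q2)
      (hK2 _ q1) (crN c true K hK6 _ q2 (by' 0 hj) q3) (crK _ q1 (bz' 0 hj))
    have := hSD.n0
    linarith
  · -- spot 1
    obtain ⟨q1, q2, q3⟩ := hSD.k1
    obtain ⟨t1, t2, p', hp', t3⟩ := hSD.k2
    have hcy : crX s (Th x m n K c) x (ci s m n) (ci (!s) m n) (y 1) := by
      refine TA12_cr q1.colour_right (by' 1 hj) ⟨p', hp', q1.symm.trans ?_⟩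
      exact TA12_conn t3 fun v hv => ⟨hv.1, hA2 v hv⟩
    have hAS : ∃ k : Bool, ∀ v ∈ AS c x m n K K' i, Th x m n K c v = k := by
      have hi' : i = 0 ∨ i = 2 ∨ i = 5 := by
        have h6 : i = 0 ∨ i = 1 ∨ i = 2 ∨ i = 3 ∨ i = 4 ∨ i = 5 := by omega
        rcases h6 with rfl | rfl | rfl | rfl | rfl | rfl
        · exact Or.inl rfl
        · exact absurd rfl hconf.1
        · exact Or.inr (Or.inl rfl)
        · exfalso; rcases hconf.2 with h | h
          · exact h rfl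
          · omega
        · exfalso; rcases hconf.2 with h | h
          · exact h rfl
          · omega
        · exact Or.inr (Or.inr rfl)
      rcases hi' with rfl | rfl | rfl
      · refine ⟨true, fun v hv => ?_⟩
        have hv' : v ∈ nbd (ann x m n) K := hv
        rw [hF1 v (Or.inr hv'), hK6 v hv']
      · exact ⟨true, fun v hv => hA1 v hv⟩
      · refine ⟨false, fun v hv => ?_⟩
        have hv' : v ∈ K := hv
        rw [hF1 v (Or.inl hv'), hK2 v hv']
    obtain ⟨k, hk⟩ := hAS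
    exact TA12_core hCG hCG2 hDA hx hm hmn hr h8 hr3 h1 h12 hNBK.1 (hAann i hi) hk
      (TA12_nb hCG hN (hSD.py 1 hj) (hSD.pz 1 hj) hSD.n1) q1.colour_right q2 hcy q3 hij hp hl hB
  · obtain ⟨q1, q2, q3⟩ := hSD.k2
    refine caseC false (TA12_nb hCG hN (hSD.py 2 hj) (hSD.pz 2 hj) (Or.inl ?_)) (hK2' _ q1)
      (hK6' _ q2) (crK' _ q1 (by' 2 hj)) (crN c true K' hK6' _ q2 (bz' 2 hj) q3)
    have := hSD.n2
    linarith
  · obtain ⟨q1, q2, q3⟩ := hSD.k3
    refine caseC true (TA12_nb hCG hN (hSD.py 3 hj) (hSD.pz 3 hj) (Or.inl ?_)) (hK6' _ q2)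
      (hK2' _ q1) (crN c true K' hK6' _ q2 (by' 3 hj) q3) (crK' _ q1 (bz' 3 hj))
    have := hSD.n3
    linarith
  · -- spot 4
    obtain ⟨q1, q2, q3⟩ := hSD.k4
    obtain ⟨t1, t2, p', hp', t3⟩ := hSD.k5
    have hcy : crX s (Th x m n K' c) x (ci s m n) (ci (!s) m n) (y 4) := by
      refine TA12_cr q1.colour_right (by' 4 hj) ⟨p', hp', q1.symm.trans ?_⟩
      exact TA12_conn t3 fun v hv => ⟨hv.1, hB2 v hv⟩
    have hAS : ∃ k : Bool, ∀ v ∈ AS c x m n K K' i, Th x m n K' c v = k := by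
      have hi' : i = 2 ∨ i = 3 ∨ i = 5 := by
        have h6 : i = 0 ∨ i = 1 ∨ i = 2 ∨ i = 3 ∨ i = 4 ∨ i = 5 := by omega
        rcases h6 with rfl | rfl | rfl | rfl | rfl | rfl
        · exfalso; rcases hconf.2 with h | h
          · exact h rfl
          · omega
        · exfalso; rcases hconf.2 with h | h
          · exact h rfl
          · omega
        · exact Or.inl rfl
        · exact Or.inr (Or.inl rfl)
        · exact absurd rfl hconf.1
        · exact Or.inr (Or.inr rfl)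
      rcases hi' with rfl | rfl | rfl
      · refine ⟨false, fun v hv => ?_⟩
        have hv' : v ∈ K' := hv
        rw [hF1' v (Or.inl hv'), hK2' v hv']
      · refine ⟨true, fun v hv => ?_⟩
        have hv' : v ∈ nbd (ann x m n) K' := hv
        rw [hF1' v (Or.inr hv'), hK6' v hv']
      · exact ⟨true, fun v hv => hB1 v hv⟩
    obtain ⟨k, hk⟩ := hAS
    exact TA12_core hCG hCG2 hDA hx hm hmn hr h8 hr3 h1 h12 hNBK'.1 (hAann i hi) hk
      (TA12_nb hCG hN (hSD.py 4 hj) (hSD.pz 4 hj) hSD.n4) q1.colour_right q2 hcy q3 hij hp hl hB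
  · obtain ⟨q1, q2, q3⟩ := hSD.k5
    refine caseC false (TA12_nb hCG hN (hSD.py 5 hj) (hSD.pz 5 hj) (Or.inl ?_)) (hK2 _ q1)
      (hK6 _ q2) (crK _ q1 (by' 5 hj)) (crN c true K hK6 _ q2 (bz' 5 hj) q3)
    have := hSD.n5
    linarith

end TP.TA
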