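import Pool.Agent.helper96.SP.SpecTB

/-! # Project sp, part TB, module TB4: the standard end is good -/

namespace TP

open DP MeasureTheory

theorem TB4_mem (x : V) (n : ℕ) (l : ℕ) : zp6 x n l ∈ bd x n := by
  show sd x (zp6 x n l) = n
  unfold zp6 sd
  split_ifs <;> simp <;> omega

theorem TB4_pos (x : V) (m : ℕ) (hm : 1 ≤ m) : pos x (64 * m) (zp6 x (64 * m) 0) = 32 * m ∧
    pos x (64 * m) (zp6 x (64 * m) 1) = 96 * m ∧ pos x (64 * m) (zp6 x (64 * m) 2) = 192 * m ∧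
    pos x (64 * m) (zp6 x (64 * m) 3) = 288 * m ∧ pos x (64 * m) (zp6 x (64 * m) 4) = 352 * m ∧
    pos x (64 * m) (zp6 x (64 * m) 5) = 448 * m := by
  refine ⟨?_, ?_, ?_, ?_, ?_, ?_⟩ <;> unfold pos zp6 <;> simp <;> (try split_ifs) <;> omega

/-- TB4 -/
theorem TB4 : TB4_stmt := by
  intro x i hi
  obtain ⟨m, hm, hm1, h3⟩ : ∃ m : ℕ, 2 ^ i = 64 * m ∧ 1 ≤ m ∧ 2 ^ (i - 3) = 8 * m ∧
      2 ^ (i - 6) = m := by
    refine ⟨2 ^ (i - 6), ?_, Nat.one_le_two_pow, ?_, rfl⟩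
    · rw [show (64 : ℕ) = 2 ^ 6 by norm_num, ← pow_add]
      congr 1
      omega
    · rw [show (8 : ℕ) = 2 ^ 3 by norm_num, ← pow_add]
      congr 1
      omega
  obtain ⟨p0, p1, p2, p3, p4, p5⟩ := TB4_pos x m hm1
  refine ⟨⟨rfl, ?_, ?_, ?_, ?_, ?_⟩, ?_, ?_⟩
  · show 2 ^ i / 64 = 2 ^ (i - 6)
    omega
  · show 2 ^ i / 8 = 2 ^ (i - 3)
    omega
  · exact fun l _ => TB4_mem x (2 ^ i) l
  · rw [hm]
    refine ⟨fun l => pos x (64 * m) ((std6 x (64 * m)).y l), fun l _ => ⟨0, by ring⟩, ?_, ?_⟩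
    · intro l hl
      show pos x (64 * m) (zp6 x (64 * m) l) < pos x (64 * m) (zp6 x (64 * m) (l + 1))
      interval_cases l
      · rw [p0, p1]; omega
      · rw [p1, p2]; omega
      · rw [p2, p3]; omega
      · rw [p3, p4]; omega
      · rw [p4, p5]; omega
    · show pos x (64 * m) (zp6 x (64 * m) 5) < pos x (64 * m) (zp6 x (64 * m) 0) + 8 * _
      rw [p0, p5]
      push_cast
      omega
  · intro l hl l' hl' hne
    show 2 ^ (i - 0) ≤ sd (zp6 x (2 ^ i) l) (zp6 x (2 ^ i) l')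
    rw [Nat.sub_zero, hm]
    interval_cases l <;> interval_cases l' <;> first
      | exact absurd rfl hne
      | (unfold zp6 sd; simp; omega)
  · intro j hj
    refine ⟨?_, fun l _ => TB4_mem x (2 ^ i) l, ?_⟩
    · rw [if_pos rfl]
      show 4 * 2 ^ i ≤ 2 ^ j
      calc 4 * 2 ^ i = 2 ^ (i + 2) := by rw [pow_add]; ring
        _ ≤ 2 ^ j := Nat.pow_le_pow_right (by norm_num) hj
    · show 2 * (2 ^ i / 8) ≤ 2 ^ i
      omega
  · intro j hj
    refine ⟨?_, fun l _ => TB4_mem x (2 ^ i) l, ?_⟩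
    · rw [if_neg (by decide)]
      show 4 * 2 ^ j ≤ 2 ^ i
      calc 4 * 2 ^ j = 2 ^ (j + 2) := by rw [pow_add]; ring
        _ ≤ 2 ^ i := Nat.pow_le_pow_right (by norm_num) hj
    · show 2 * (2 ^ i / 8) ≤ 2 ^ i
      omega

end TP
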